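import Mathlib
import Pool.Agent.H50.Tor4

namespace Pool.Agent.Results.MP_805877_ag.Depth

open Finset MvPolynomial Pool.Agent.H50.Vreg Pool.Agent.H50.Tor

variable {n : ℕ}

/-- The exponent vector of the squarefree monomial `x_A`, in the lexicographic order. -/
def ex (A : Finset (Fin (n + 1))) : Lex (Fin (n + 1) → ℕ) := toLex fun i => if i ∈ A then 1 else 0

/-- The ideal generated by the squarefree lexsegment set `L(u, v)` in degree `q`. -/
noncomputable def lexI (K : Type) [Field K] (q : ℕ) (u v : Finset (Fin (n + 1))) :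
    Ideal (MvPolynomial (Fin (n + 1)) K) :=
  Ideal.span {f | ∃ w : Finset (Fin (n + 1)), w.card = q ∧ ex v ≤ ex w ∧ ex w ≤ ex u ∧
    f = ∏ i ∈ w, X i}

/-- The monomial `w_0`: the last variable and the predecessors of the variables of `u`. -/
def w0 (u : Finset (Fin (n + 1))) : Finset (Fin (n + 1)) :=
  univ.filter fun j => j = Fin.last n ∨ ∃ i ∈ u, i.val = j.val + 1

variable {K : Type} [Field K]

lemma ex_lt {A B : Finset (Fin (n + 1))} :
    ex A < ex B ↔ ∃ s, s ∉ A ∧ s ∈ B ∧ ∀ t < s, (t ∈ A ↔ t ∈ B) := by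
  change (∃ s, (∀ t < s, (if t ∈ A then 1 else 0) = if t ∈ B then 1 else 0) ∧
    (if s ∈ A then 1 else 0) < if s ∈ B then 1 else 0) ↔ _
  refine exists_congr fun s => ⟨fun ⟨h1, h2⟩ => ⟨?_, ?_, fun t x => ?_⟩, fun ⟨h1, h2, h3⟩ =>
    ⟨fun t x => by simp [h3 t x], by simp [h1, h2]⟩⟩
  · intro x; split_ifs at h2 <;> omega
  · by_contra x; simp [x] at h2
  · have := h1 t x
    split_ifs at this <;> first | omega | tauto

lemma ex_inj {A B : Finset (Fin (n + 1))} (h : ex A = ex B) : A = B := by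
  ext i
  have : (if i ∈ A then 1 else 0) = if i ∈ B then 1 else 0 := congrFun h i
  split_ifs at this <;> first | omega | tauto

def blk (H : Finset (Fin (n + 1))) (x : Fin (n + 1)) : Finset (Fin (n + 1)) := H.filter (· ≤ x)

def Tr (H W : Finset (Fin (n + 1))) : Prop :=
  (∀ a ∈ W, ∀ b ∈ W, blk H a = blk H b → a = b) ∧ ∀ x, ∃ t ∈ W, blk H t = blk H x

lemma blk_eq {H : Finset (Fin (n + 1))} {a b : Fin (n + 1)} :
    blk H a = blk H b ↔ ∀ h ∈ H, (h ≤ a ↔ h ≤ b) := by
  simp [blk, Finset.ext_iff]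

lemma Tr.card {H W : Finset (Fin (n + 1))} (h : Tr H W) : W.card = (univ.image (blk H)).card := by
  rw [← card_image_of_injOn (f := blk H) h.1]
  congr 1
  ext y
  simp only [mem_image, mem_univ, true_and]
  exact ⟨fun ⟨a, _, e⟩ => ⟨a, e⟩, fun ⟨a, e⟩ => e ▸ h.2 a⟩

lemma low {H : Finset (Fin (n + 1))} (h0 : 0 ∈ H) (x : Fin (n + 1)) :
    ∃ t ∈ H, t ≤ x ∧ blk H t = blk H x := by
  obtain ⟨t, h1, h2⟩ := exists_max_image (blk H x) id ⟨0, by simp [blk, h0]⟩
  rw [blk, mem_filter] at h1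
  exact ⟨t, h1.1, h1.2, blk_eq.2 fun h y =>
    ⟨fun z => z.trans h1.2, fun z => h2 h (mem_filter.2 ⟨y, z⟩)⟩⟩

lemma tr_self {H : Finset (Fin (n + 1))} (h0 : 0 ∈ H) : Tr H H :=
  ⟨fun a ha b hb e => le_antisymm ((blk_eq.1 e a ha).1 le_rfl) ((blk_eq.1 e b hb).2 le_rfl),
    fun x => let ⟨t, a, _, b⟩ := low h0 x; ⟨t, a, b⟩⟩

lemma w0_ne {H : Finset (Fin (n + 1))} {a b : Fin (n + 1)} (ha : a ∈ w0 H) (h : a < b) :
    blk H a ≠ blk H b := fun e => by
  rcases (mem_filter.1 ha).2 with x | ⟨i, hi, x⟩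
  · exact absurd (Fin.le_last b) (not_le.2 (x ▸ h))
  · have := blk_eq.1 e i hi
    simp only [Fin.le_def, Fin.lt_def] at this h
    omega

lemma tr_w0 (H : Finset (Fin (n + 1))) : Tr H (w0 H) := by
  refine ⟨fun a ha b hb e => ?_, fun x => ?_⟩
  · rcases lt_trichotomy a b with h | h | h
    exacts [absurd e (w0_ne ha h), h, absurd e.symm (w0_ne hb h)]
  · obtain ⟨t, h1, h2⟩ := exists_max_image (univ.filter fun t => blk H t = blk H x) id
      ⟨x, by simp⟩
    have h1 := (mem_filter.1 h1).2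
    refine ⟨t, mem_filter.2 ⟨mem_univ _, ?_⟩, h1⟩
    by_contra y
    push Not at y
    have a : t.val + 1 < n + 1 := by
      have := t.2
      have : t.val ≠ n := fun z => y.1 (Fin.ext z)
      omega
    have := h2 ⟨t + 1, a⟩ (mem_filter.2 ⟨mem_univ _, h1 ▸ blk_eq.2 fun h z => by
      have := y.2 h z
      simp only [Fin.le_def]; omega⟩)
    simp [Fin.le_def] at this

lemma Tr.le {H W : Finset (Fin (n + 1))} (h0 : 0 ∈ H) (h : Tr H W) : ex W ≤ ex H := by
  by_contra x
  obtain ⟨s, h1, h2, h3⟩ := ex_lt.1 (not_le.1 x)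
  obtain ⟨t, a, b, c⟩ := low h0 s
  have d : t ≠ s := fun z => h1 (z ▸ a)
  exact d (h.1 t ((h3 t (lt_of_le_of_ne b d)).1 a) s h2 c)

lemma Tr.ge {H W : Finset (Fin (n + 1))} (h : Tr H W) : ex (w0 H) ≤ ex W := by
  by_contra x
  obtain ⟨s, h1, h2, h3⟩ := ex_lt.1 (not_le.1 x)
  obtain ⟨t, a, b⟩ := h.2 s
  rcases lt_trichotomy t s with y | y | y
  · exact w0_ne ((h3 t y).1 a) y b
  · exact h1 (y ▸ a)
  · exact w0_ne h2 y b.symm

lemma w0_lt {H G : Finset (Fin (n + 1))} (h0 : 0 ∈ H) (h : ex H < ex G) :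
    ex (w0 H) < ex (w0 G) := by
  obtain ⟨s, h1, h2, h3⟩ := ex_lt.1 h
  have a : s.val ≠ 0 := fun z => h1 ((Fin.ext z : s = 0) ▸ h0)
  have b := s.2
  refine ex_lt.2 ⟨⟨s - 1, by omega⟩, fun x => ?_, mem_filter.2 ⟨mem_univ _, Or.inr ⟨s, h2, ?_⟩⟩,
    fun t x => ?_⟩
  · rcases (mem_filter.1 x).2 with y | ⟨i, hi, y⟩
    · simp [Fin.ext_iff] at y; omega
    · exact h1 ((Fin.ext (by simp at y; omega) : i = s) ▸ hi)
  · simp; omega
  · simp only [w0, mem_filter, mem_univ, true_and]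
    refine or_congr_right (exists_congr fun i => and_congr_left fun y => h3 i ?_)
    simp only [Fin.lt_def] at x ⊢; omega

open Classical in
noncomputable def tt (K : Type) [Field K] (H W : Finset (Fin (n + 1))) : K :=
  if Tr H W then 1 else 0

lemma adj {U : Finset (Fin (n + 1))} {i j : Fin (n + 1)} (hi : i ∈ U) (h : i < j)
    (hb : ∀ k ∈ U, i < k → ¬ k < j) : sg K U i + sg K U j = 0 := by
  have : U.filter (· < j) = insert i (U.filter (· < i)) := by
    ext k
    simp only [mem_filter, mem_insert]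
    constructor
    · rintro ⟨a, b⟩
      rcases lt_trichotomy k i with y | y | y
      exacts [Or.inr ⟨a, y⟩, Or.inl y, absurd b (hb k a y)]
    · rintro (rfl | ⟨a, b⟩)
      exacts [⟨hi, h⟩, ⟨a, b.trans h⟩]
  rw [sg, sg, this, card_insert_of_notMem (by simp), pow_succ]; ring

lemma cob_tt (H U : Finset (Fin (n + 1))) : cob (tt K H) U = 0 := by
  by_cases h : ∃ i ∈ U, Tr H (U.erase i)
  swap
  · exact sum_eq_zero fun i hi => by rw [tt, if_neg fun x => h ⟨i, hi, x⟩, mul_zero]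
  obtain ⟨i, hi, h⟩ := h
  obtain ⟨j, hj, e⟩ := h.2 i
  obtain ⟨hji, hj⟩ := mem_erase.1 hj
  have k1 : ∀ k ∈ U, k ≠ i → blk H k = blk H i → k = j := fun k x y z =>
    h.1 k (mem_erase.2 ⟨y, x⟩) j (mem_erase.2 ⟨hji, hj⟩) (z.trans e.symm)
  have k2 : Tr H (U.erase j) := by
    refine ⟨fun a ha b hb z => ?_, fun x => ?_⟩
    · rw [mem_erase] at ha hb
      by_cases a1 : a = i
      · by_contra b1
        exact hb.1 (k1 b hb.2 (fun w => b1 (a1.trans w.symm)) (a1 ▸ z.symm))
      · by_cases b1 : b = i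
        · exact absurd (k1 a ha.2 a1 (b1 ▸ z)) ha.1
        · exact h.1 a (mem_erase.2 ⟨a1, ha.2⟩) b (mem_erase.2 ⟨b1, hb.2⟩) z
    · obtain ⟨t, a, b⟩ := h.2 x
      by_cases y : t = j
      · exact ⟨i, mem_erase.2 ⟨hji.symm, hi⟩, e ▸ y ▸ b⟩
      · exact ⟨t, mem_erase.2 ⟨y, (mem_erase.1 a).2⟩, b⟩
  rw [cob, sum_eq_add_of_mem i j hi hj hji.symm, tt, tt, if_pos h, if_pos k2, mul_one, mul_one]
  · rcases lt_or_gt_of_ne hji with y | y
    · rw [add_comm]
      refine adj hj y fun k a b c => b.ne' (k1 k a c.ne (blk_eq.2 fun z w => ?_))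
      exact ⟨fun v => v.trans c.le, fun v => ((blk_eq.1 e z w).2 v).trans b.le⟩
    · refine adj hi y fun k a b c => c.ne (k1 k a b.ne' (blk_eq.2 fun z w => ?_))
      exact ⟨fun v => (blk_eq.1 e z w).1 (v.trans c.le), fun v => v.trans b.le⟩
  · intro k _ x
    rw [tt, if_neg, mul_zero]
    exact fun y => hji (y.1 j (mem_erase.2 ⟨x.2.symm, hj⟩) i (mem_erase.2 ⟨x.1.symm, hi⟩) e)

lemma kill {q : ℕ} (S : Finset (Finset (Fin (n + 1)))) : (∀ H ∈ S, H.card = q ∧ 0 ∈ H) →
    (∀ H ∈ S, ∀ G, G.card = q → 0 ∈ G → ex G ≤ ex H → G ∈ S) →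
    ∀ d : Finset (Fin (n + 1)) → K, (∀ U, cob d U = 0) →
      (∀ H, H.card = q → 0 ∈ H → H ∉ S → d H = 0) → (∀ H ∈ S, d (w0 H) = 0) →
        ∀ W, W.card = q → d W = 0 := by
  induction S using Finset.induction_on_max_value ex with
  | empty =>
    intro _ _ d h1 h2 _ W hW
    by_cases x : 0 ∈ W
    · exact h2 W hW x (by simp)
    have := h1 (insert 0 W)
    rw [cob, sum_insert x, erase_insert x, sum_eq_zero, add_zero, mul_eq_zero] at this
    · exact this.resolve_left (left_ne_zero_of_mul_eq_one (sg_sq _ _))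
    · intro i hi
      have y : i ≠ 0 := fun z => x (z ▸ hi)
      rw [h2 _ _ (by simp [y.symm]) (by simp), mul_zero]
      rw [card_erase_of_mem (by simp [hi]), card_insert_of_notMem x, hW]; rfl
  | insert a s ha hm ih =>
    intro s1 s2 d h1 h2 h3 W hW
    have a0 := s1 a (mem_insert_self _ _)
    have lt : ∀ H ∈ s, ex H < ex a := fun H x =>
      lt_of_le_of_ne (hm H x) fun y => ha (ex_inj y ▸ x)
    have key := ih (fun H x => s1 H (mem_insert_of_mem x))
      (fun H x G y z w => (mem_insert.1 (s2 H (mem_insert_of_mem x) G y z w)).resolve_left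
        fun v => absurd (lt H x) (not_lt.2 (v ▸ w)))
      (fun W => d W - d a * tt K a W) (fun U => by
        have := cob_tt (K := K) a U
        have := h1 U
        simp only [cob, mul_sub, sum_sub_distrib, mul_left_comm _ (d a), ← mul_sum] at *
        simp [*])
      (fun H x y z => by
        by_cases w : H = a
        · simp [w, tt, tr_self a0.2]
        · have v : H ∉ insert a s := by simp [w, z]
          rw [h2 H x y v, tt, if_neg fun t => v (s2 a (mem_insert_self _ _) H x y (t.le a0.2))]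
          simp)
      (fun H x => by
        rw [h3 H (mem_insert_of_mem x), tt, if_neg fun t => absurd
          (w0_lt (s1 H (mem_insert_of_mem x)).2 (lt H x)) (not_lt.2 t.ge)]
        simp)
    have k1 := key (w0 a) (by rw [(tr_w0 a).card, ← (tr_self a0.2).card, a0.1])
    have k2 := key W hW
    simp only [h3 a (mem_insert_self _ _), tt, if_pos (tr_w0 a), mul_one, zero_sub,
      neg_eq_zero] at k1
    simpa [k1] using k2

theorem result (K : Type) [Field K] (n q : ℕ) (hq : 2 ≤ q) (u v : Finset (Fin (n + 1)))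
    (hu : u.card = q) (hv : v.card = q) (h0 : 0 ∈ u) (h1 : 0 ∉ v) :
    HasDepth (lexI K q u v) (q - 1) ↔ ex v ≤ ex (w0 u) := by
  classical
  have hn : q ≤ n := by
    have := card_le_univ (insert 0 v)
    rw [card_insert_of_notMem h1, Fintype.card_fin] at this; omega
  set NJ : (Fin (n + 1) →₀ ℕ) → Prop := fun m => ∃ w : Finset (Fin (n + 1)),
    w.card = q ∧ ex v ≤ ex w ∧ ex w ≤ ex u ∧ w ⊆ m.support with hNJ
  have hJ : ∀ f, f ∈ lexI K q u v ↔ ∀ m ∈ f.support, NJ m := fun f => by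
    have e : ∀ w : Finset (Fin (n + 1)),
        ∏ i ∈ w, (X i : MvPolynomial _ K) = monomial (ind w) 1 := fun w => by
      rw [ind, monomial_sum_one]; rfl
    have e2 : ∀ (w : Finset (Fin (n + 1))) (m : Fin (n + 1) →₀ ℕ), ind w ≤ m ↔ w ⊆ m.support :=
      fun w m => by
        refine ⟨fun x i y => ?_, fun x i => ?_⟩
        · have := x i
          rw [ind_ap, if_pos y] at this
          rw [Finsupp.mem_support_iff]; omega
        · rw [ind_ap]
          split_ifs with y
          · exact Nat.one_le_iff_ne_zero.2 (Finsupp.mem_support_iff.1 (x y))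
          · exact Nat.zero_le _
    have : lexI K q u v = Ideal.span ((fun s => monomial s (1 : K)) ''
        {s | ∃ w : Finset (Fin (n + 1)), w.card = q ∧ ex v ≤ ex w ∧ ex w ≤ ex u ∧ s = ind w}) := by
      rw [lexI]; congr 1; ext g
      exact ⟨fun ⟨w, a, b, c, d⟩ => ⟨_, ⟨w, a, b, c, rfl⟩, (d.trans (e w)).symm⟩,
        fun ⟨_, ⟨w, a, b, c, rfl⟩, d⟩ => ⟨w, a, b, c, d.symm.trans (e w).symm⟩⟩
    rw [this, mem_ideal_span_monomial_image]
    exact forall₂_congr fun m _ => ⟨fun ⟨_, ⟨w, a, b, c, rfl⟩, d⟩ => ⟨w, a, b, c, (e2 _ _).1 d⟩,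
      fun ⟨w, a, b, c, d⟩ => ⟨_, ⟨w, a, b, c, rfl⟩, (e2 _ _).2 d⟩⟩
  have sup : ∀ (α : Fin (n + 1) →₀ ℕ), (¬ ∃ e, 2 ≤ α e) → ∀ τ,
      (α - ind τ).support = α.support \ τ := fun α x τ => by
    ext i
    have : ¬ 2 ≤ α i := fun y => x ⟨i, y⟩
    simp only [Finsupp.mem_support_iff, Finsupp.tsub_apply, ind_ap, mem_sdiff]
    split_ifs with y <;> simp only [y, not_true, not_false_iff, and_true, and_false, iff_false] <;>
      omega
  have van : ∀ (α : Fin (n + 1) →₀ ℕ) j, n + 2 ≤ j + q → (j + q = n + 2 →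
      Van K univ (fun τ => ¬ NJ (ind τᶜ)) j) → Van K α.support (fun τ => ¬ NJ (α - ind τ)) j := by
    intro α j a b
    by_cases x : ∃ e, 2 ≤ α e
    · obtain ⟨e, he⟩ := x
      refine van_cone (e := e) (by simp; omega) (fun τ _ y ⟨w, a, b, c, d⟩ =>
        y ⟨w, a, b, c, fun i z => ?_⟩) j
      have := d z
      simp only [Finsupp.mem_support_iff, Finsupp.tsub_apply, ind_ap, mem_erase] at this ⊢
      by_cases t : i = e
      · subst t; split_ifs <;> omega
      · simpa [t] using this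
    rcases α.support.eq_empty_or_nonempty with y | y
    · refine van_empty fun τ z w => ?_
      rw [y, subset_empty] at z
      rw [z, card_empty] at w; omega
    by_cases z : α.support.card + 1 < j + q
    · refine van_true y fun ρ s t ⟨w, a, _, _, d⟩ => ?_
      have := card_le_card d
      rw [sup α x, card_sdiff_of_subset s] at this; omega
    have c := card_le_univ α.support
    rw [Fintype.card_fin] at c
    have d : α.support = univ := eq_univ_of_card _ (by rw [Fintype.card_fin]; omega)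
    rw [d]
    refine (b (by omega)).congr fun τ _ => ?_
    have : (ind τᶜ).support = univ \ τ := by ext i; simp [ind_ap]
    simp only [hNJ, sup α x, d, this]
  have sc : ∀ W : Finset (Fin (n + 1)), (ind W).support = W := fun W => by ext i; simp [ind_ap]
  rw [depth_iff (j0 := n + 1 - q + 1) _ (by omega) (by omega) fun j hj =>
    kz_of_van hJ fun α => van α j (by omega) (by omega)]
  swap
  · refine Ideal.span_le.2 ?_
    rintro _ ⟨w, a, -, -, rfl⟩
    obtain ⟨i, hi⟩ := card_pos.1 (by omega : 0 < w.card)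
    exact Ideal.mem_of_dvd _ (dvd_prod_of_mem _ hi) (Ideal.subset_span ⟨i, rfl⟩)
  have top := van_top (K := K) (L := fun τ => ¬ NJ (ind τᶜ)) (j := n + 1 - q) (q := q) (by omega)
    (by omega) fun τ x ⟨w, a, _, _, d⟩ => by
      have := card_le_card d
      rw [sc, card_compl, Fintype.card_fin] at this; omega
  have nj : ∀ W : Finset (Fin (n + 1)), W.card = q →
      (NJ (ind Wᶜᶜ) ↔ ex v ≤ ex W ∧ ex W ≤ ex u) := fun W x => by
    simp only [hNJ, compl_compl, sc]
    exact ⟨fun ⟨w, a, b, c, d⟩ => eq_of_subset_of_card_le d (by omega) ▸ ⟨b, c⟩,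
      fun y => ⟨W, x, y.1, y.2, subset_rfl⟩⟩
  constructor
  · intro h
    by_contra x
    refine h (kz_of_van hJ fun α => van α _ (by omega) fun _ => top.2 fun d a b => ?_)
    refine kill (univ.filter fun H => H.card = q ∧ 0 ∈ H ∧ ex H ≤ ex u)
      (fun H y => ⟨(mem_filter.1 y).2.1, (mem_filter.1 y).2.2.1⟩)
      (fun H y G z w t => mem_filter.2 ⟨mem_univ _, z, w, t.trans (mem_filter.1 y).2.2.2⟩) d a
      (fun H y z w => b H y fun t => w (mem_filter.2 ⟨mem_univ _, y, z, ((nj H y).1 t).2⟩))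
      fun H y => ?_
    obtain ⟨-, y1, y2, y3⟩ := mem_filter.1 y
    have c : (w0 H).card = q := by rw [(tr_w0 H).card, ← (tr_self y2).card, y1]
    refine b _ c fun t => x (((nj _ c).1 t).1.trans ?_)
    rcases y3.eq_or_lt with z | z
    · rw [ex_inj z]
    · exact (w0_lt y2 z).le
  · intro h x
    have y := van_of_kz hJ x (ind univ)
    rw [sc] at y
    have := top.1 (y.congr fun τ _ => by
      have : ind univ - ind τ = ind τᶜ := by
        ext i; simp only [Finsupp.tsub_apply, ind_ap, mem_univ, mem_compl]; split_ifs <;> simp_all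
      rw [this]) (tt K u) (cob_tt u) (fun W a b => if_neg fun t =>
        b ((nj W a).2 ⟨h.trans t.ge, t.le h0⟩)) u hu
    simp [tt, tr_self h0] at this

end Pool.Agent.Results.MP_805877_ag.Depth
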